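import Mathlib
import Pool.Agent.N198.NF.Def2

/-!
Project NF, leaf GA: Galois theory of number fields without imaginary quadratic and cyclic quartic
subfields, and the action of the absolute Galois group on roots of unity.
-/

set_option autoImplicit false

namespace Pool.Agent.N887.NF

open NumberField Pool.Agent.N198.NF

namespace GA

/-! ### Number theory -/

theorem neg_one_sq {q : ℕ} (hq : q.Prime) (hq4 : q % 4 = 1) (b : ℕ) :
    ∃ u : ZMod (q ^ b), u ^ 2 = -1 := by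
  have : Fact q.Prime := ⟨hq⟩
  have h1 : IsSquare (-1 : ZMod q) := ZMod.exists_sq_eq_neg_one_iff.2 (by omega)
  obtain ⟨a, ha⟩ := h1
  obtain ⟨a, rfl⟩ := ZMod.intCast_surjective a
  have h2 : ((q : ℤ)) ∣ a ^ 2 - (-1) := by
    rw [← ZMod.intCast_zmod_eq_zero_iff_dvd]
    push_cast
    rw [pow_two, ← ha]
    ring
  have h3 := dvd_sub_pow_of_dvd_sub (R := ℤ) (p := q) h2 b
  have hodd : Odd (q ^ b) := Odd.pow (Nat.odd_iff.2 (by omega))
  rw [hodd.neg_one_pow] at h3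
  refine ⟨((a ^ q ^ b : ℤ) : ZMod (q ^ b)), ?_⟩
  have h4 : ((q ^ b : ℕ) : ℤ) ∣ (a ^ q ^ b) ^ 2 + 1 := by
    have h5 : ((q ^ b : ℕ) : ℤ) ∣ (q : ℤ) ^ (b + 1) := by
      push_cast
      exact pow_dvd_pow _ (Nat.le_succ b)
    refine (h5.trans h3).trans (dvd_of_eq ?_)
    rw [← pow_mul, ← pow_mul, mul_comm 2]
    ring
  rw [← ZMod.intCast_zmod_eq_zero_iff_dvd] at h4
  push_cast at h4 ⊢
  exact eq_neg_of_add_eq_zero_left h4

theorem exists_units {q b R t : ℕ} (hq : q.Prime) (hq4 : q % 4 = 1)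
    (hcop : R.Coprime q)
    (ht1 : ((t + 1 : ℕ) : ZMod R) = 0) (ht2 : ((t : ℕ) : ZMod (q ^ b)) = 1) :
    ∃ (u v : (ZMod (R * q ^ b))ˣ), (v : ZMod (R * q ^ b)) = (t : ℕ) ∧ v = -1 * u ^ 2 ∧
      v ^ 2 = 1 := by
  obtain ⟨w, hw⟩ := neg_one_sq hq hq4 b
  let e := ZMod.chineseRemainder (Nat.Coprime.pow_right b hcop)
  have ht : e ((t : ℕ) : ZMod (R * q ^ b)) = (-1, 1) := by
    rw [map_natCast]
    ext
    · rw [Prod.fst_natCast]
      push_cast at ht1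
      exact eq_neg_of_add_eq_zero_left ht1
    · rw [Prod.snd_natCast]
      exact ht2
  let u := e.symm (1, w)
  have hu : e u = (1, w) := e.apply_symm_apply _
  have h1 : ((t : ℕ) : ZMod (R * q ^ b)) = -1 * u ^ 2 := by
    apply e.injective
    rw [ht, map_mul, map_pow, hu, map_neg, map_one]
    ext
    · simp
    · simp [hw]
  have h2 : ((t : ℕ) : ZMod (R * q ^ b)) ^ 2 = 1 := by
    apply e.injective
    rw [map_pow, ht, map_one]
    ext <;> simp
  have h3 : u * u ^ 3 = 1 := by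
    have : u * u ^ 3 = (-1 * u ^ 2) ^ 2 := by ring
    rw [this, ← h1, h2]
  have h3' : u ^ 3 * u = 1 := (mul_comm _ _).trans h3
  have h2' : ((t : ℕ) : ZMod (R * q ^ b)) * (t : ℕ) = 1 := by rw [← pow_two]; exact h2
  refine ⟨⟨u, u ^ 3, h3, h3'⟩, ⟨(t : ℕ), (t : ℕ), h2', h2'⟩, rfl, ?_, ?_⟩
  · ext
    push_cast
    exact h1
  · ext
    push_cast
    exact h2

/-! ### Galois theory -/

section

variable {k Om : Type} [Field k] [NumberField k] [Field Om] [CharZero Om] [Algebra k Om]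
  [IsAlgClosure k Om]

/-- restriction of automorphisms over `k` to a normal subextension over `ℚ` -/
noncomputable def res (Z : IntermediateField ℚ Om) [Normal ℚ Z] :
    (Om ≃ₐ[k] Om) →* (Z ≃ₐ[ℚ] Z) :=
  (AlgEquiv.restrictNormalHom Z).comp (AlgEquiv.restrictScalarsHom ℚ)

omit [IsAlgClosure k Om] in
theorem res_apply (Z : IntermediateField ℚ Om) [Normal ℚ Z] (σ : Om ≃ₐ[k] Om) (z : Z) :
    ((res Z σ z : Z) : Om) = σ z := by
  have h := AlgEquiv.restrictNormal_commutes (AlgEquiv.restrictScalars ℚ σ) Z z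
  exact h

theorem exists_hom (Z : IntermediateField ℚ Om) [FiniteDimensional ℚ Z] [Normal ℚ Z]
    (H : Subgroup (Z ≃ₐ[ℚ] Z)) (hH : ∀ σ : Om ≃ₐ[k] Om, res Z σ ∈ H) :
    ∃ j : IntermediateField.fixedField H →ₐ[ℚ] k,
      ∀ x, algebraMap k Om (j x) = ((x : Z) : Om) := by
  have : IsAlgClosed Om := IsAlgClosure.isAlgClosed k
  have : Algebra.IsAlgebraic k Om := IsAlgClosure.isAlgebraic
  have : Normal k Om := IsAlgClosure.normal k Om
  have : IsGalois k Om := ⟨⟩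
  let i : k →ₐ[ℚ] Om := IsScalarTower.toAlgHom ℚ k Om
  let f : IntermediateField.fixedField H →ₐ[ℚ] Om := Z.val.comp (IntermediateField.val _)
  have hf : ∀ x, f x ∈ i.range := by
    intro x
    have h1 : f x ∈ Set.range (algebraMap k Om) := by
      rw [InfiniteGalois.mem_range_algebraMap_iff_fixed]
      intro σ
      have h2 : res Z σ (x : Z) = x := x.2 ⟨res Z σ, hH σ⟩
      have h3 := res_apply Z σ (x : Z)
      rw [h2] at h3
      exact h3.symm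
    obtain ⟨y, hy⟩ := h1
    exact ⟨y, hy⟩
  let g : IntermediateField.fixedField H →ₐ[ℚ] i.range := f.codRestrict i.range hf
  let e : k ≃ₐ[ℚ] i.range := AlgEquiv.ofInjective i i.toRingHom.injective
  refine ⟨(e.symm : i.range →ₐ[ℚ] k).comp g, fun x => ?_⟩
  have h4 : e (e.symm (g x)) = g x := e.apply_symm_apply _
  have h5 := congrArg (fun z : i.range => (z : Om)) h4
  exact h5

theorem no_cyclic4
    (h4 : ∀ F : IntermediateField ℚ k, Module.finrank ℚ F = 4 → IsGalois ℚ F →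
      ¬ IsCyclic (F ≃ₐ[ℚ] F)) (Z : IntermediateField ℚ Om) [FiniteDimensional ℚ Z] [IsGalois ℚ Z]
    (N : Subgroup (Z ≃ₐ[ℚ] Z)) [N.Normal] (hN : ∀ σ : Om ≃ₐ[k] Om, res Z σ ∈ N)
    (hi : N.index = 4) (hc : IsCyclic ((Z ≃ₐ[ℚ] Z) ⧸ N)) : False := by
  obtain ⟨j, hj⟩ := exists_hom (k := k) Z N hN
  have e : IntermediateField.fixedField N ≃ₐ[ℚ] j.fieldRange := AlgEquiv.ofInjectiveField j
  have e2 : ((Z ≃ₐ[ℚ] Z) ⧸ N) ≃* (j.fieldRange ≃ₐ[ℚ] j.fieldRange) :=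
    (IsGalois.normalAutEquivQuotient N).trans (AlgEquiv.autCongr e)
  have h0 : IsGalois ℚ (IntermediateField.fixedField N) := IsGalois.of_fixedField_normal_subgroup N
  have h1 : IsGalois ℚ j.fieldRange := IsGalois.of_algEquiv e
  refine h4 j.fieldRange ?_ h1 ?_
  · have : FiniteDimensional ℚ j.fieldRange := inferInstance
    rw [← IsGalois.card_aut_eq_finrank ℚ j.fieldRange, ← Nat.card_congr e2.toEquiv]
    exact hi
  · exact isCyclic_of_surjective e2 e2.surjective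

theorem four_not_dvd
    (h4 : ∀ F : IntermediateField ℚ k, Module.finrank ℚ F = 4 → IsGalois ℚ F →
      ¬ IsCyclic (F ≃ₐ[ℚ] F)) (Z : IntermediateField ℚ Om) [FiniteDimensional ℚ Z] [IsGalois ℚ Z]
    (ψ : (Z ≃ₐ[ℚ] Z) →* ℂˣ) (hψ : ∀ σ : Om ≃ₐ[k] Om, ψ (res Z σ) = 1) : ¬ 4 ∣ orderOf ψ := by
  rintro ⟨m, hm⟩
  have hfin : orderOf ψ ≠ 0 := by
    have h1 : ψ ^ Nat.card (Z ≃ₐ[ℚ] Z) = 1 := by
      ext g
      rw [MonoidHom.pow_apply, ← map_pow, pow_card_eq_one', map_one, MonoidHom.one_apply]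
    have h2 : orderOf ψ ∣ Nat.card (Z ≃ₐ[ℚ] Z) := orderOf_dvd_of_pow_eq_one h1
    intro h3
    rw [h3, zero_dvd_iff] at h2
    exact Nat.card_pos.ne' h2
  have hm0 : m ≠ 0 := by
    rintro rfl
    exact hfin hm
  have h5 : orderOf (ψ ^ m) = 4 := by
    rw [orderOf_pow_of_dvd hm0 (hm ▸ Dvd.intro_left _ rfl), hm, Nat.mul_div_cancel _ (by omega)]
  set χ := ψ ^ m with hχ
  have hχres : ∀ σ : Om ≃ₐ[k] Om, res Z σ ∈ χ.ker := by
    intro σ
    rw [MonoidHom.mem_ker, hχ, MonoidHom.pow_apply, hψ, one_pow]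
  have hcyc : IsCyclic χ.range := inferInstance
  have hcard : Nat.card χ.range = 4 := by
    apply Nat.dvd_antisymm
    · obtain ⟨g, hg⟩ := IsCyclic.exists_ofOrder_eq_natCard (α := χ.range)
      rw [← hg]
      apply orderOf_dvd_of_pow_eq_one
      obtain ⟨g, x, rfl⟩ := g
      ext
      have h6 := pow_orderOf_eq_one χ
      rw [h5] at h6
      have h7 := congrArg (fun f : (Z ≃ₐ[ℚ] Z) →* ℂˣ => ((f x : ℂˣ) : ℂ)) h6
      exact h7
    · rw [← h5]
      apply orderOf_dvd_of_pow_eq_one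
      ext x
      have h6 : (⟨χ x, x, rfl⟩ : χ.range) ^ Nat.card χ.range = 1 := pow_card_eq_one'
      have h7 := congrArg (fun f : χ.range => ((f : ℂˣ) : ℂ)) h6
      exact h7
  have e3 : ((Z ≃ₐ[ℚ] Z) ⧸ χ.ker) ≃* χ.range := QuotientGroup.quotientKerEquivRange χ
  refine no_cyclic4 h4 Z χ.ker hχres ?_ ?_
  · rw [← hcard, ← Nat.card_congr e3.toEquiv]
    rfl
  · exact isCyclic_of_surjective e3.symm e3.symm.surjective

theorem conj_trivial
    (h2 : ∀ (x : k) (d : ℚ), x ^ 2 = algebraMap ℚ k d → 0 ≤ d)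
    (Z : IntermediateField ℚ Om) [FiniteDimensional ℚ Z] [IsGalois ℚ Z]
    (hcomm : ∀ a b : Z ≃ₐ[ℚ] Z, a * b = b * a)
    (c : Z ≃ₐ[ℚ] Z) (J : Z →ₐ[ℚ] ℂ) (hJ : ∀ z, J (c z) = (starRingEnd ℂ) (J z))
    (ψ : (Z ≃ₐ[ℚ] Z) →* ℂˣ) (hψ : ∀ σ : Om ≃ₐ[k] Om, ψ (res Z σ) = 1)
    (hψ2 : ∀ g, ψ g ^ 2 = 1) : ψ c = 1 := by
  by_contra hne
  have hpm : ∀ g, ψ g = 1 ∨ ψ g = -1 := by
    intro g
    have h1 : ((ψ g : ℂˣ) : ℂ) * (ψ g : ℂˣ) = 1 := by
      rw [← Units.val_mul, ← pow_two, hψ2, Units.val_one]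
    rcases mul_self_eq_one_iff.1 h1 with h | h
    · left
      ext
      exact h
    · right
      ext
      exact h
  have hcm : ψ c = -1 := (hpm c).resolve_left hne
  have hcc : ∀ z, c (c z) = z := by
    intro z
    apply J.toRingHom.injective
    change J (c (c z)) = J z
    rw [hJ, hJ, Complex.conj_conj]
  have hcN : c ∉ (IntermediateField.fixedField ψ.ker).fixingSubgroup := by
    rw [IntermediateField.fixingSubgroup_fixedField]
    exact hne
  rw [IntermediateField.mem_fixingSubgroup_iff] at hcN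
  push Not at hcN
  obtain ⟨y, hy, hyc⟩ := hcN
  have hyN : ∀ g : Z ≃ₐ[ℚ] Z, ψ g = 1 → g y = y := fun g hg => hy ⟨g, hg⟩
  obtain ⟨x, hx⟩ : ∃ x, x = y - c y := ⟨_, rfl⟩
  have hx0 : x ≠ 0 := by
    rw [hx, sub_ne_zero]
    exact fun h => hyc h.symm
  have hcx : c x = -x := by
    rw [hx, map_sub, hcc]
    ring
  have hxN : ∀ g : Z ≃ₐ[ℚ] Z, ψ g = 1 → g x = x := by
    intro g hg
    have h1 : g (c y) = c (g y) := by
      have := congrArg (fun f : Z ≃ₐ[ℚ] Z => f y) (hcomm g c)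
      exact this
    rw [hx, map_sub, h1, hyN g hg]
  have hx2 : ∀ g : Z ≃ₐ[ℚ] Z, g (x ^ 2) = x ^ 2 := by
    intro g
    rcases hpm g with h | h
    · rw [map_pow, hxN g h]
    · have h1 : ψ (g * c) = 1 := by
        rw [map_mul, h, hcm]
        simp
      have h3 : g (c x) = x := hxN _ h1
      rw [hcx, map_neg] at h3
      rw [map_pow, ← neg_sq, h3]
  obtain ⟨d, hd⟩ := (IsGalois.mem_range_algebraMap_iff_fixed (F := ℚ) (x ^ 2)).2 hx2
  obtain ⟨j, -⟩ := exists_hom (k := k) Z ψ.ker hψ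
  have hmem : x ∈ IntermediateField.fixedField ψ.ker := fun g => hxN g.1 g.2
  have hd0 : 0 ≤ d := by
    refine h2 (j ⟨x, hmem⟩) d ?_
    rw [← map_pow, ← AlgHom.commutes j]
    congr 1
    apply Subtype.ext
    exact hd.symm
  have hw : J x ^ 2 = (d : ℂ) := by
    rw [← map_pow, ← hd, AlgHom.commutes]
    rfl
  have hw2 : (starRingEnd ℂ) (J x) = -J x := by
    rw [← hJ, hcx, map_neg]
  have hre : (J x).re = 0 := by
    have := congrArg Complex.re hw2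
    rw [Complex.conj_re, Complex.neg_re] at this
    linarith
  have him : (J x).im = 0 := by
    have h1 := congrArg Complex.re hw
    rw [pow_two, Complex.mul_re, hre, Complex.ratCast_re] at h1
    have h3 : (0 : ℝ) ≤ d := by exact_mod_cast hd0
    nlinarith [sq_nonneg (J x).im]
  apply hx0
  apply J.toRingHom.injective
  change J x = J 0
  rw [map_zero]
  exact Complex.ext hre him

theorem main_aux
    (h2 : ∀ (x : k) (d : ℚ), x ^ 2 = algebraMap ℚ k d → 0 ≤ d)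
    (h4 : ∀ F : IntermediateField ℚ k, Module.finrank ℚ F = 4 → IsGalois ℚ F →
      ¬ IsCyclic (F ≃ₐ[ℚ] F))
    (Z : IntermediateField ℚ Om) [FiniteDimensional ℚ Z] [IsGalois ℚ Z]
    (hcomm : ∀ a b : Z ≃ₐ[ℚ] Z, a * b = b * a)
    (c : Z ≃ₐ[ℚ] Z) (J : Z →ₐ[ℚ] ℂ) (hJ : ∀ z, J (c z) = (starRingEnd ℂ) (J z))
    (s τ : Z ≃ₐ[ℚ] Z) (hτ : τ = c * s ^ 2) (hτ2 : τ ^ 2 = 1) :
    ∃ σ : Om ≃ₐ[k] Om, res Z σ = τ := by
  obtain ⟨H, hH⟩ : ∃ H : Subgroup (Z ≃ₐ[ℚ] Z), H = (res (k := k) Z).range := ⟨_, rfl⟩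
  have hnorm : H.Normal :=
    ⟨fun n hn g => by rw [hcomm g n, mul_assoc, mul_inv_cancel, mul_one]; exact hn⟩
  by_contra hcon
  let I : CommGroup ((Z ≃ₐ[ℚ] Z) ⧸ H) :=
    { (inferInstance : Group ((Z ≃ₐ[ℚ] Z) ⧸ H)) with
      mul_comm := by
        intro a b
        induction a using QuotientGroup.induction_on with
        | H a =>
          induction b using QuotientGroup.induction_on with
          | H b => rw [← QuotientGroup.mk_mul, hcomm, QuotientGroup.mk_mul] }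
  have hne : (QuotientGroup.mk τ : (Z ≃ₐ[ℚ] Z) ⧸ H) ≠ 1 := by
    rw [Ne, QuotientGroup.eq_one_iff, hH]
    exact hcon
  have hfin : Finite ((Z ≃ₐ[ℚ] Z) ⧸ H) := inferInstance
  obtain ⟨φ, hφ⟩ := CommGroup.exists_apply_ne_one_of_hasEnoughRootsOfUnity ((Z ≃ₐ[ℚ] Z) ⧸ H) ℂ hne
  obtain ⟨ψ, hψdef⟩ : ∃ ψ : (Z ≃ₐ[ℚ] Z) →* ℂˣ, ∀ g, ψ g = φ (QuotientGroup.mk g) :=
    ⟨φ.comp (QuotientGroup.mk' H), fun g => rfl⟩
  have hψ : ∀ σ : Om ≃ₐ[k] Om, ψ (res Z σ) = 1 := by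
    intro σ
    have h1 : (QuotientGroup.mk (res Z σ) : (Z ≃ₐ[ℚ] Z) ⧸ H) = 1 := by
      rw [QuotientGroup.eq_one_iff, hH]
      exact ⟨σ, rfl⟩
    rw [hψdef, h1, map_one]
  have hψτ : ψ τ = -1 := by
    have h1 : ((ψ τ : ℂˣ) : ℂ) * (ψ τ : ℂˣ) = 1 := by
      rw [← Units.val_mul, ← map_mul, ← pow_two, hτ2, map_one, Units.val_one]
    rcases mul_self_eq_one_iff.1 h1 with h | h
    · exfalso
      apply hφ
      rw [← hψdef]
      ext
      exact h
    · ext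
      exact h
  have hn4 := four_not_dvd h4 Z ψ hψ
  have heven : Even (orderOf ψ) := by
    rcases Nat.even_or_odd (orderOf ψ) with h | h
    · exact h
    · exfalso
      have h1 : (ψ τ) ^ orderOf ψ = 1 := by
        rw [← MonoidHom.pow_apply, pow_orderOf_eq_one, MonoidHom.one_apply]
      rw [hψτ, h.neg_one_pow] at h1
      have h3 := congrArg Units.val h1
      rw [Units.val_neg, Units.val_one] at h3
      norm_num at h3
  obtain ⟨n, hn⟩ := heven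
  have hodd : Odd n := by
    rw [← Nat.not_even_iff_odd]
    rintro ⟨m, hm⟩
    exact hn4 ⟨m, by omega⟩
  have h5 : ∀ g, (ψ ^ n) g ^ 2 = 1 := by
    intro g
    rw [MonoidHom.pow_apply, ← pow_mul, mul_two, ← hn, ← MonoidHom.pow_apply, pow_orderOf_eq_one,
      MonoidHom.one_apply]
  have h6 : (ψ ^ n) c = 1 := by
    refine conj_trivial h2 Z hcomm c J hJ (ψ ^ n) (fun σ => ?_) h5
    rw [MonoidHom.pow_apply, hψ, one_pow]
  have h7 : (ψ ^ n) τ = 1 := by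
    rw [hτ, map_mul, h6, map_pow, h5, one_mul]
  rw [MonoidHom.pow_apply, hψτ, hodd.neg_one_pow] at h7
  have h3 := congrArg Units.val h7
  rw [Units.val_neg, Units.val_one] at h3
  norm_num at h3

end

end GA

open GA in
/-- leaf GA -/
theorem acts_of_subfields {k : Type} [Field k] [NumberField k]
    (h2 : ∀ (x : k) (d : ℚ), x ^ 2 = algebraMap ℚ k d → 0 ≤ d)
    (h4 : ∀ F : IntermediateField ℚ k, Module.finrank ℚ F = 4 → IsGalois ℚ F →
      ¬ IsCyclic (F ≃ₐ[ℚ] F))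
    {q b R t : ℕ} (hq : q.Prime) (hq4 : q % 4 = 1) (hR : 0 < R) (hcop : R.Coprime q)
    (ht1 : ((t + 1 : ℕ) : ZMod R) = 0) (ht2 : ((t : ℕ) : ZMod (q ^ b)) = 1) :
    Acts k (R * q ^ b) t := by
  obtain ⟨u, v, hv, hvu, hv2⟩ := exists_units hq hq4 hcop ht1 ht2
  generalize hM : R * q ^ b = M at *
  have hM0 : M ≠ 0 := by
    rw [← hM]
    exact (Nat.mul_pos hR (pow_pos hq.pos b)).ne'
  have : NeZero M := ⟨hM0⟩
  have : NeZero (M : AlgebraicClosure k) := ⟨by exact_mod_cast hM0⟩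
  obtain ⟨ζ, hζ⟩ := HasEnoughRootsOfUnity.exists_primitiveRoot (AlgebraicClosure k) M
  have : Algebra.IsAlgebraic ℚ (AlgebraicClosure k) := Algebra.IsAlgebraic.trans ℚ k _
  obtain ⟨Z, hZ⟩ : ∃ Z : IntermediateField ℚ (AlgebraicClosure k),
    Z = IntermediateField.adjoin ℚ {ζ} := ⟨_, rfl⟩
  have hcyc : IsCyclotomicExtension {M} ℚ Z := by
    rw [hZ]
    exact hζ.intermediateField_adjoin_isCyclotomicExtension ℚ
  have hζZ : ζ ∈ Z := by
    rw [hZ]
    exact IntermediateField.mem_adjoin_simple_self ℚ ζ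
  have : FiniteDimensional ℚ Z := IsCyclotomicExtension.finiteDimensional {M} ℚ Z
  have : NumberField Z := ⟨⟩
  have : IsGalois ℚ Z := IsCyclotomicExtension.isGalois {M} ℚ Z
  have hz : IsPrimitiveRoot (⟨ζ, hζZ⟩ : Z) M := by
    rw [← IsPrimitiveRoot.coe_submonoidClass_iff]
    exact hζ
  let e := IsCyclotomicExtension.Rat.galEquivZMod M Z
  have he : ∀ (w : (ZMod M)ˣ), e.symm w ⟨ζ, hζZ⟩ = (⟨ζ, hζZ⟩ : Z) ^ (w : ZMod M).val := by
    intro w
    have h1 := IsCyclotomicExtension.Rat.galEquivZMod_apply_of_pow_eq M Z (e.symm w) hz.pow_eq_one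
    rw [h1]
    congr 2
    exact congrArg Units.val (e.apply_symm_apply w)
  have hcomm : ∀ a b : Z ≃ₐ[ℚ] Z, a * b = b * a := by
    intro a b
    apply e.injective
    rw [map_mul, map_mul, mul_comm]
  let J : Z →ₐ[ℚ] ℂ := IsAlgClosed.lift
  have hJ : ∀ z, J (e.symm (-1) z) = (starRingEnd ℂ) (J z) := by
    have h1 : J.comp (e.symm (-1) : Z ≃ₐ[ℚ] Z).toAlgHom =
        ((Complex.conjAe.toAlgHom.restrictScalars ℚ).comp J) := by
      apply (hz.powerBasis ℚ).algHom_ext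
      rw [hz.powerBasis_gen ℚ]
      change J (e.symm (-1) ⟨ζ, hζZ⟩) = (starRingEnd ℂ) (J ⟨ζ, hζZ⟩)
      have hJM : J ⟨ζ, hζZ⟩ ^ M = 1 := by rw [← map_pow, hz.pow_eq_one, map_one]
      have hJn : ‖J ⟨ζ, hζZ⟩‖ = 1 := Complex.norm_eq_one_of_pow_eq_one hJM hM0
      have hJ0 : J ⟨ζ, hζZ⟩ ≠ 0 := by
        rw [← norm_pos_iff, hJn]
        exact one_pos
      apply mul_right_cancel₀ hJ0
      rw [← Complex.normSq_eq_conj_mul_self, Complex.normSq_eq_norm_sq, hJn, he, map_pow,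
        ← pow_succ]
      have h3 : M ∣ ((((-1 : (ZMod M)ˣ)) : ZMod M)).val + 1 := by
        rw [← ZMod.natCast_eq_zero_iff]
        push_cast
        rw [ZMod.natCast_zmod_val]
        simp
      obtain ⟨i, hi⟩ := h3
      rw [hi, pow_mul, hJM, one_pow]
      simp
    intro z
    exact congrArg (fun f : Z →ₐ[ℚ] ℂ => f z) h1
  obtain ⟨σ, hσ⟩ := main_aux (Om := AlgebraicClosure k) h2 h4 Z hcomm (e.symm (-1)) J hJ
    (e.symm u) (e.symm v) (by rw [hvu, map_mul, map_pow]) (by rw [← map_pow, hv2, map_one])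
  refine ⟨σ, fun η hη => ?_⟩
  obtain ⟨i, -, rfl⟩ := hζ.eq_pow_of_pow_eq_one hη
  have h8 : σ ζ = ζ ^ t := by
    have h9 := res_apply Z σ ⟨ζ, hζZ⟩
    rw [hσ, he, hv, ZMod.val_natCast] at h9
    rw [← h9]
    change ζ ^ (t % M) = ζ ^ t
    conv_rhs => rw [← Nat.mod_add_div t M, pow_add, pow_mul, hζ.pow_eq_one, one_pow, mul_one]
  rw [map_pow, h8, ← pow_mul, ← pow_mul, mul_comm]

end Pool.Agent.N887.NF
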